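import Pool.Agent.LPK.Stmts

/-!
# Squad LPK, row TOT (helper39): the total of a certificate is nonnegative
-/

set_option autoImplicit false

noncomputable section

open MeasureTheory Filter Topology
open scoped RealInnerProductSpace

namespace Pool.Agent.LPK.H39T

open Pool.Agent.LPK

/-! ### lists -/

/-- sums of lists of summable families -/
theorem hs_list {ι α : Type} (L : List α) (F : α → ι → ℝ) (S : α → ℝ)
    (h : ∀ d, HasSum (F d) (S d)) :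
    HasSum (fun a => (L.map fun d => F d a).sum) (L.map S).sum := by
  induction L with
  | nil => simpa using (hasSum_zero : HasSum (fun _ : ι => (0 : ℝ)) 0)
  | cons d L ih =>
    simp only [List.map_cons, List.sum_cons]
    exact (h d).add ih

theorem ls_mul {α : Type} (L : List α) (f : α → ℝ) (c : ℝ) :
    (L.map f).sum * c = (L.map fun d => f d * c).sum := by
  induction L with
  | nil => simp
  | cons d L ih => simp only [List.map_cons, List.sum_cons, add_mul, ih]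

theorem ls_add {α : Type} (L : List α) (f g : α → ℝ) :
    (L.map f).sum + (L.map g).sum = (L.map fun d => f d + g d).sum := by
  induction L with
  | nil => simp
  | cons d L ih =>
    simp only [List.map_cons, List.sum_cons]
    rw [← ih]
    ring

theorem ls_nonneg {α : Type} (L : List α) (f : α → ℝ) (h : ∀ d, 0 ≤ f d) :
    0 ≤ (L.map f).sum := by
  induction L with
  | nil => simp
  | cons d L ih =>
    simp only [List.map_cons, List.sum_cons]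
    exact add_nonneg (h d) ih

theorem ls_congr {α : Type} (L : List α) {f g : α → ℝ} (h : ∀ d, f d = g d) :
    (L.map f).sum = (L.map g).sum := by
  rw [show f = g from funext h]

theorem ls_map {α β : Type} (L : List α) (p : α → β) (f : β → ℝ) :
    ((L.map p).map f).sum = (L.map fun d => f (p d)).sum := by
  rw [List.map_map]
  rfl

/-! ### the pieces -/

section

variable {n : ℕ} (D : CD)

theorem W1_mul (s t : List ℤ) (x y : V n) :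
    e1 s (‖x‖ ^ 2) * e1 t (‖y‖ ^ 2) * (G x * G y) = W1 s x * W1 t y := by
  unfold W1
  ring

/-- pairs of the lattice -/
theorem fLL_eq (b : Fin n → V n) (a : Z2 n) : fLL D b a =
    W D.P (pt b a.1) (pt b a.2) +
    (D.ps.map fun d => (d.1 : ℝ) * (W1 d.2.2 (pt b a.1) * W1 d.2.2 (pt b a.2))).sum +
    (D.ps2.map fun d => (d.1 : ℝ) * (W1 d.2 (pt b a.1) * W1 d.2 (pt b a.2) *
      (n * ⟪pt b a.1, pt b a.2⟫ ^ 2 - ‖pt b a.1‖ ^ 2 * ‖pt b a.2‖ ^ 2))).sum +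
    (D.cb.map fun d => (d.1 : ℝ) * (ind (Cg a.1 a.2) *
      (W1 d.2.2.2.1 (pt b a.1) * W1 d.2.2.2.1 (pt b a.2)))).sum := by
  unfold fLL CD.LL CD.K CD.C W K2
  set x := pt b a.1
  set y := pt b a.2
  rw [ls_map, ls_map]
  have h1 : ∀ e r1 r2 r3 h i g : ℝ, (e + (r1 + r2 * h) + i * r3) * g =
      e * g + r1 * g + r2 * (h * g) + r3 * (i * g) := by
    intro e r1 r2 r3 h i g
    ring
  rw [h1, ls_mul, ls_mul, ls_mul]
  congr 1
  congr 1
  congr 1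
  · refine ls_congr _ fun d => ?_
    rw [← W1_mul]
    ring
  · refine ls_congr _ fun d => ?_
    rw [← W1_mul]
    ring
  · refine ls_congr _ fun d => ?_
    rw [← W1_mul]
    ring

/-- pairs of the dual lattice -/
theorem fSS_eq (b : Fin n → V n) (a : Z2 n) : fSS D b a =
    W D.Q (pt b a.1) (pt b a.2) +
    (D.qs.map fun d => (d.1 : ℝ) * (W1 d.2.2 (pt b a.1) * W1 d.2.2 (pt b a.2))).sum +
    (D.qs2.map fun d => (d.1 : ℝ) * (W1 d.2 (pt b a.1) * W1 d.2 (pt b a.2) *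
      (n * ⟪pt b a.1, pt b a.2⟫ ^ 2 - ‖pt b a.1‖ ^ 2 * ‖pt b a.2‖ ^ 2))).sum +
    (D.cb.map fun d => (d.1 : ℝ) * (ind (Cg a.1 a.2) *
      (W1 d.2.2.2.2 (pt b a.1) * W1 d.2.2.2.2 (pt b a.2)))).sum := by
  unfold fSS CD.SS CD.K' CD.C' W K2
  set x := pt b a.1
  set y := pt b a.2
  rw [ls_map, ls_map]
  have h1 : ∀ e r1 r2 r3 h i g : ℝ, (e + (r1 + r2 * h) + i * r3) * g =
      e * g + r1 * g + r2 * (h * g) + r3 * (i * g) := by
    intro e r1 r2 r3 h i g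
    ring
  rw [h1, ls_mul, ls_mul, ls_mul]
  congr 1
  congr 1
  congr 1
  · refine ls_congr _ fun d => ?_
    rw [← W1_mul]
    ring
  · refine ls_congr _ fun d => ?_
    rw [← W1_mul]
    ring
  · refine ls_congr _ fun d => ?_
    rw [← W1_mul]
    ring

/-- mixed pairs -/
theorem fLS_eq (κ : ℝ) (b b' : Fin n → V n) (a : Z2 n) : fLS κ D b b' a =
    (-κ⁻¹) * W (T3 n D.P) (pt b' a.2) (pt b a.1) + (-κ) * W (T3 n D.Q) (pt b a.1) (pt b' a.2) +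
    (D.cb.map fun d => (d.1 : ℝ) * (2 * rr n * (sg a.1 a.2 *
      (W1 d.2.2.2.1 (pt b a.1) * W1 d.2.2.2.2 (pt b' a.2))))).sum := by
  unfold fLS CD.LS CD.X W
  set x := pt b a.1
  set y := pt b' a.2
  rw [real_inner_comm x y]
  have h1 : ∀ e f i r g g' : ℝ, (-(κ⁻¹ * e) - κ * f + 2 * rr n * i * r) * (g * g') =
      (-κ⁻¹) * (e * (g' * g)) + (-κ) * (f * (g * g')) + r * (2 * rr n * i * (g * g')) := by
    intro e f i r g g'
    ring
  rw [h1, ls_mul]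
  congr 1
  refine ls_congr _ fun d => ?_
  rw [← W1_mul]
  ring

/-- one vector of the lattice -/
theorem fL_eq (b : Fin n → V n) (a : Fin n → ℤ) : fL D b a =
    e3 D.g (‖pt b a‖ ^ 2) 0 0 * G (pt b a) +
    (D.cb.map fun d => (d.1 : ℝ) * (2 * d.2.2.1 * rr n * W1 d.2.2.2.1 (pt b a))).sum +
    (D.ps.map fun d => (d.1 : ℝ) * (2 * d.2.1 * W1 d.2.2 (pt b a))).sum +
    (D.cb.map fun d => (d.1 : ℝ) * (2 * d.2.1 * (ind (Evn a) * W1 d.2.2.2.1 (pt b a)))).sum := by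
  unfold fL CD.f1 CD.as CD.bs bo
  set x := pt b a
  have h1 : ∀ e r1 r2 r3 i g : ℝ, (e + 2 * rr n * r1 + 2 * r2 + i * (2 * r3)) * g =
      e * g + r1 * (2 * rr n * g) + r2 * (2 * g) + r3 * (2 * i * g) := by
    intro e r1 r2 r3 i g
    ring
  rw [h1, ls_mul, ls_mul, ls_mul]
  congr 1
  congr 1
  congr 1
  · refine ls_congr _ fun d => ?_
    unfold W1
    ring
  · refine ls_congr _ fun d => ?_
    unfold W1
    ring
  · refine ls_congr _ fun d => ?_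
    unfold W1
    ring

/-- one vector of the dual lattice -/
theorem fS_eq (κ : ℝ) (b : Fin n → V n) (a : Fin n → ℤ) : fS κ D b a =
    (-κ⁻¹) * (e3 (T3 n D.g) (‖pt b a‖ ^ 2) 0 0 * G (pt b a)) +
    (D.cb.map fun d => (d.1 : ℝ) * (2 * d.2.1 * rr n * W1 d.2.2.2.2 (pt b a))).sum +
    (D.qs.map fun d => (d.1 : ℝ) * (2 * d.2.1 * W1 d.2.2 (pt b a))).sum +
    (D.cb.map fun d => (d.1 : ℝ) * (2 * d.2.2.1 * (ind (Evn a) * W1 d.2.2.2.2 (pt b a)))).sum := by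
  unfold fS CD.f1' CD.at CD.bt bo
  set x := pt b a
  have h1 : ∀ e r1 r2 r3 i g : ℝ, (-(κ⁻¹ * e) + 2 * rr n * r1 + 2 * r2 + i * (2 * r3)) * g =
      (-κ⁻¹) * (e * g) + r1 * (2 * rr n * g) + r2 * (2 * g) + r3 * (2 * i * g) := by
    intro e r1 r2 r3 i g
    ring
  rw [h1, ls_mul, ls_mul, ls_mul]
  congr 1
  congr 1
  congr 1
  · refine ls_congr _ fun d => ?_
    unfold W1
    ring
  · refine ls_congr _ fun d => ?_
    unfold W1
    ring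
  · refine ls_congr _ fun d => ?_
    unfold W1
    ring

end

theorem ind_abs (p : Prop) : |ind p| ≤ 1 := by
  unfold ind
  by_cases h : p
  · rw [if_pos h, abs_one]
  · rw [if_neg h, abs_zero]
    norm_num

theorem sg_abs {n : ℕ} (a c : Fin n → ℤ) : |sg a c| ≤ 1 := by
  unfold sg
  rw [abs_pow, abs_neg, abs_one, one_pow]

/-- multiplication with a bounded factor -/
theorem sum_bd {ι : Type} {f g : ι → ℝ} (hf : Summable f) (hg : ∀ a, |g a| ≤ 1) :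
    Summable fun a => g a * f a := by
  refine Summable.of_norm_bounded hf.norm fun a => ?_
  rw [norm_mul, Real.norm_eq_abs (g a)]
  calc |g a| * ‖f a‖ ≤ 1 * ‖f a‖ := mul_le_mul_of_nonneg_right (hg a) (norm_nonneg _)
    _ = ‖f a‖ := one_mul _

/-- **TOT** -/
theorem tot (dua : DuaStmt) (sum : SumStmt) (mll : MllStmt) (gpo : GpoStmt) (ps0 : Ps0Stmt)
    (ps2 : Ps2Stmt) (cbn : CbnStmt) (_fsm : FsmStmt) : TotStmt := by
  intro n κ D b b' hev hD hP hQ hg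
  have hκ := hD.pos
  have hD' := (dua n κ b b' hD).1
  obtain ⟨s1, s2, s3, s4⟩ := sum n κ κ b b b' b' hD hD
  obtain ⟨s1', s2', s3', s4'⟩ := sum n κ⁻¹ κ⁻¹ b' b' b b hD' hD'
  obtain ⟨_, m2, _, m4⟩ := sum n κ κ⁻¹ b b' b' b hD hD'
  obtain ⟨_, m2', _, _⟩ := sum n κ⁻¹ κ b' b b b' hD' hD
  have hEg : Ev D.g := fun t ht _ => by rw [(hg t ht).2]
  -- the sums
  have hLL := (((s2 D.P).hasSum.add (hs_list D.ps _ _ fun d =>
    (s4 d.2.2 d.2.2).hasSum.mul_left (d.1 : ℝ))).add (hs_list D.ps2 _ _ fun d =>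
    (ps2 n κ b b' hD d.2).1.hasSum.mul_left (d.1 : ℝ))).add (hs_list D.cb _ _ fun d =>
    (sum_bd (s4 d.2.2.2.1 d.2.2.2.1) (fun a => ind_abs (Cg a.1 a.2))).hasSum.mul_left (d.1 : ℝ))
  have hSS := (((s2' D.Q).hasSum.add (hs_list D.qs _ _ fun d =>
    (s4' d.2.2 d.2.2).hasSum.mul_left (d.1 : ℝ))).add (hs_list D.qs2 _ _ fun d =>
    (ps2 n κ⁻¹ b' b hD' d.2).1.hasSum.mul_left (d.1 : ℝ))).add (hs_list D.cb _ _ fun d =>
    (sum_bd (s4' d.2.2.2.2 d.2.2.2.2) (fun a => ind_abs (Cg a.1 a.2))).hasSum.mul_left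
      (d.1 : ℝ))
  -- the mixed sums
  have hsw : Summable fun a : Z2 n => W (T3 n D.P) (pt b' a.2) (pt b a.1) :=
    (m2' (T3 n D.P)).prod_symm
  have hLS := (((hsw.hasSum.mul_left (-κ⁻¹)).add ((m2 (T3 n D.Q)).hasSum.mul_left (-κ))).add
    (hs_list D.cb _ _ fun d => ((sum_bd (m4 d.2.2.2.1 d.2.2.2.2)
      (fun a => sg_abs a.1 a.2)).hasSum.mul_left (2 * rr n)).mul_left (d.1 : ℝ)))
  have hgs : Summable fun a : Fin n → ℤ => e3 D.g (‖pt b a‖ ^ 2) 0 0 * G (pt b a) := by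
    have h := s1 D.g 0
    simp only [norm_zero, inner_zero_right, ne_eq, OfNat.ofNat_ne_zero, not_false_eq_true,
      zero_pow] at h
    exact h
  have hgs' : Summable fun a : Fin n → ℤ => e3 (T3 n D.g) (‖pt b' a‖ ^ 2) 0 0 * G (pt b' a) := by
    have h := s1' (T3 n D.g) 0
    simp only [norm_zero, inner_zero_right, ne_eq, OfNat.ofNat_ne_zero, not_false_eq_true,
      zero_pow] at h
    exact h
  have hL := ((hgs.hasSum.add (hs_list D.cb _ _ fun d =>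
    ((s3 d.2.2.2.1).hasSum.mul_left (2 * (d.2.2.1 : ℝ) * rr n)).mul_left (d.1 : ℝ))).add
    (hs_list D.ps _ _ fun d =>
      ((s3 d.2.2).hasSum.mul_left (2 * (d.2.1 : ℝ))).mul_left (d.1 : ℝ))).add
    (hs_list D.cb _ _ fun d => ((sum_bd (s3 d.2.2.2.1) (fun a => ind_abs (Evn a))).hasSum.mul_left
      (2 * (d.2.1 : ℝ))).mul_left (d.1 : ℝ))
  have hS := (((hgs'.hasSum.mul_left (-κ⁻¹)).add (hs_list D.cb _ _ fun d =>
    ((s3' d.2.2.2.2).hasSum.mul_left (2 * (d.2.1 : ℝ) * rr n)).mul_left (d.1 : ℝ))).add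
    (hs_list D.qs _ _ fun d =>
      ((s3' d.2.2).hasSum.mul_left (2 * (d.2.1 : ℝ))).mul_left (d.1 : ℝ))).add
    (hs_list D.cb _ _ fun d => ((sum_bd (s3' d.2.2.2.2) (fun a => ind_abs (Evn a))).hasSum.mul_left
      (2 * (d.2.2.1 : ℝ))).mul_left (d.1 : ℝ))
  have eLL : (∑' a, fLL D b a) = _ := (hLL.tsum_eq ▸ tsum_congr fun a => fLL_eq D b a)
  have eSS : (∑' a, fSS D b' a) = _ := (hSS.tsum_eq ▸ tsum_congr fun a => fSS_eq D b' a)
  have eLS : (∑' a, fLS κ D b b' a) = _ := (hLS.tsum_eq ▸ tsum_congr fun a => fLS_eq D κ b b' a)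
  have eL : (∑' a, fL D b a) = _ := (hL.tsum_eq ▸ tsum_congr fun a => fL_eq D b a)
  have eS : (∑' a, fS κ D b' a) = _ := (hS.tsum_eq ▸ tsum_congr fun a => fS_eq D κ b' a)
  rw [eLL, eSS, eLS, eL, eS]
  -- the transforms
  have hneg : ∀ S : ℝ, -κ⁻¹ * (κ * S) = -S := by
    intro S
    rw [neg_mul, ← mul_assoc, inv_mul_cancel₀ hκ.ne', one_mul]
  have hneg' : ∀ S : ℝ, -κ * (κ⁻¹ * S) = -S := by
    intro S
    rw [neg_mul, ← mul_assoc, mul_inv_cancel₀ hκ.ne', one_mul]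
  have tP : (∑' a : Z2 n, W (T3 n D.P) (pt b' a.2) (pt b a.1)) =
      κ * ∑' a : Z2 n, W D.P (pt b a.1) (pt b a.2) := by
    rw [mll n κ κ b b' b b' hD hD D.P hP]
    exact (Equiv.prodComm (Fin n → ℤ) (Fin n → ℤ)).tsum_eq
      (fun a : Z2 n => W (T3 n D.P) (pt b' a.1) (pt b a.2))
  have tQ : (∑' a : Z2 n, W (T3 n D.Q) (pt b a.1) (pt b' a.2)) =
      κ⁻¹ * ∑' a : Z2 n, W D.Q (pt b' a.1) (pt b' a.2) :=
    (mll n κ⁻¹ κ⁻¹ b' b b' b hD' hD' D.Q hQ).symm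
  have tg : (∑' a : Fin n → ℤ, e3 (T3 n D.g) (‖pt b' a‖ ^ 2) 0 0 * G (pt b' a)) =
      κ * ∑' a : Fin n → ℤ, e3 D.g (‖pt b a‖ ^ 2) 0 0 * G (pt b a) :=
    (gpo n κ b b' hD D.g hEg).symm
  rw [tP, tQ, tg, hneg, hneg', hneg]
  -- the squares
  have hps : 0 ≤ (D.ps.map fun d => (d.1 : ℝ) * (d.2.1 : ℝ) ^ 2).sum +
      (D.ps.map fun d => (d.1 : ℝ) * (2 * (d.2.1 : ℝ) *
        ∑' a : Fin n → ℤ, W1 d.2.2 (pt b a))).sum +
      (D.ps.map fun d => (d.1 : ℝ) * ∑' a : Z2 n, W1 d.2.2 (pt b a.1) *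
        W1 d.2.2 (pt b a.2)).sum := by
    rw [ls_add, ls_add]
    refine ls_nonneg _ _ fun d => ?_
    have h := mul_nonneg (Nat.cast_nonneg (α := ℝ) d.1) (ps0 n κ b b' hD d.2.1 d.2.2)
    refine le_of_le_of_eq h ?_
    ring
  have hqs : 0 ≤ (D.qs.map fun d => (d.1 : ℝ) * (d.2.1 : ℝ) ^ 2).sum +
      (D.qs.map fun d => (d.1 : ℝ) * (2 * (d.2.1 : ℝ) *
        ∑' a : Fin n → ℤ, W1 d.2.2 (pt b' a))).sum +
      (D.qs.map fun d => (d.1 : ℝ) * ∑' a : Z2 n, W1 d.2.2 (pt b' a.1) *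
        W1 d.2.2 (pt b' a.2)).sum := by
    rw [ls_add, ls_add]
    refine ls_nonneg _ _ fun d => ?_
    have h := mul_nonneg (Nat.cast_nonneg (α := ℝ) d.1) (ps0 n κ⁻¹ b' b hD' d.2.1 d.2.2)
    refine le_of_le_of_eq h ?_
    ring
  have hps2 : 0 ≤ (D.ps2.map fun d => (d.1 : ℝ) * ∑' a : Z2 n,
      W1 d.2 (pt b a.1) * W1 d.2 (pt b a.2) *
        (n * ⟪pt b a.1, pt b a.2⟫ ^ 2 - ‖pt b a.1‖ ^ 2 * ‖pt b a.2‖ ^ 2)).sum :=
    ls_nonneg _ _ fun d => mul_nonneg (Nat.cast_nonneg _) (ps2 n κ b b' hD d.2).2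
  have hqs2 : 0 ≤ (D.qs2.map fun d => (d.1 : ℝ) * ∑' a : Z2 n,
      W1 d.2 (pt b' a.1) * W1 d.2 (pt b' a.2) *
        (n * ⟪pt b' a.1, pt b' a.2⟫ ^ 2 - ‖pt b' a.1‖ ^ 2 * ‖pt b' a.2‖ ^ 2)).sum :=
    ls_nonneg _ _ fun d => mul_nonneg (Nat.cast_nonneg _) (ps2 n κ⁻¹ b' b hD' d.2).2
  -- the class block
  have hcb : 0 ≤ (D.cb.map fun d => (d.1 : ℝ) *
      ((d.2.1 : ℝ) ^ 2 + 2 * d.2.1 * d.2.2.1 * rr n + (d.2.2.1 : ℝ) ^ 2)).sum +
      (D.cb.map fun d => (d.1 : ℝ) * ∑' a : Z2 n, ind (Cg a.1 a.2) *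
        (W1 d.2.2.2.1 (pt b a.1) * W1 d.2.2.2.1 (pt b a.2))).sum +
      (D.cb.map fun d => (d.1 : ℝ) * ∑' a : Z2 n, ind (Cg a.1 a.2) *
        (W1 d.2.2.2.2 (pt b' a.1) * W1 d.2.2.2.2 (pt b' a.2))).sum +
      (D.cb.map fun d => (d.1 : ℝ) * (2 * rr n * ∑' a : Z2 n, sg a.1 a.2 *
        (W1 d.2.2.2.1 (pt b a.1) * W1 d.2.2.2.2 (pt b' a.2)))).sum +
      (D.cb.map fun d => (d.1 : ℝ) * (2 * (d.2.2.1 : ℝ) * rr n *
        ∑' a : Fin n → ℤ, W1 d.2.2.2.1 (pt b a))).sum +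
      (D.cb.map fun d => (d.1 : ℝ) * (2 * (d.2.1 : ℝ) *
        ∑' a : Fin n → ℤ, ind (Evn a) * W1 d.2.2.2.1 (pt b a))).sum +
      (D.cb.map fun d => (d.1 : ℝ) * (2 * (d.2.1 : ℝ) * rr n *
        ∑' a : Fin n → ℤ, W1 d.2.2.2.2 (pt b' a))).sum +
      (D.cb.map fun d => (d.1 : ℝ) * (2 * (d.2.2.1 : ℝ) *
        ∑' a : Fin n → ℤ, ind (Evn a) * W1 d.2.2.2.2 (pt b' a))).sum := by
    rw [ls_add, ls_add, ls_add, ls_add, ls_add, ls_add, ls_add]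
    refine ls_nonneg _ _ fun d => ?_
    have h := mul_nonneg (Nat.cast_nonneg (α := ℝ) d.1)
      (cbn n hev κ b b' hD d.2.1 d.2.2.1 d.2.2.2.1 d.2.2.2.2)
    unfold CB at h
    refine le_of_le_of_eq h ?_
    ring
  have ec0 : CD.c0 n D = (D.cb.map fun d => (d.1 : ℝ) *
      ((d.2.1 : ℝ) ^ 2 + 2 * d.2.1 * d.2.2.1 * rr n + (d.2.2.1 : ℝ) ^ 2)).sum := rfl
  have ebp : bc D.ps = (D.ps.map fun d => (d.1 : ℝ) * (d.2.1 : ℝ) ^ 2).sum := rfl
  have ebq : bc D.qs = (D.qs.map fun d => (d.1 : ℝ) * (d.2.1 : ℝ) ^ 2).sum := rfl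
  rw [ec0, ebp, ebq]
  linarith

end Pool.Agent.LPK.H39T
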