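import Pool.Agent.LPK.Stmts

/-!
# Squad LPK, row PS2 (helper39): the positive kernel of degree 2
-/

set_option autoImplicit false

noncomputable section

open MeasureTheory Filter Topology
open scoped RealInnerProductSpace

namespace Pool.Agent.LPK.H39

open Pool.Agent.LPK

theorem inner_sum {n : ℕ} (x y : V n) : ⟪x, y⟫ = ∑ i, x i * y i := by
  rw [PiLp.inner_apply]
  refine Finset.sum_congr rfl fun i _ => ?_
  simp [mul_comm]

theorem norm_sum {n : ℕ} (x : V n) : ‖x‖ ^ 2 = ∑ i, x i * x i := by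
  rw [← real_inner_self_eq_norm_sq, inner_sum]

/-- the components of the degree 2 part -/
def mm {n : ℕ} (i j : Fin n) (x : V n) : ℝ := n * (x i * x j) - if i = j then ‖x‖ ^ 2 else 0

theorem mm_bound {n : ℕ} (i j : Fin n) (x : V n) : |mm i j x| ≤ (n + 1) * ‖x‖ ^ 2 := by
  have h1 : |x i| ≤ ‖x‖ := PiLp.norm_apply_le x i
  have h2 : |x j| ≤ ‖x‖ := PiLp.norm_apply_le x j
  have h3 : |x i * x j| ≤ ‖x‖ ^ 2 := by
    rw [abs_mul, pow_two]
    exact mul_le_mul h1 h2 (abs_nonneg _) (norm_nonneg _)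
  have h4 : |(n : ℝ) * (x i * x j)| ≤ n * ‖x‖ ^ 2 := by
    rw [abs_mul, Nat.abs_cast]
    exact mul_le_mul_of_nonneg_left h3 (Nat.cast_nonneg n)
  have h5 : |(if i = j then ‖x‖ ^ 2 else 0)| ≤ ‖x‖ ^ 2 := by
    by_cases h : i = j
    · rw [if_pos h, abs_of_nonneg (by positivity)]
    · rw [if_neg h, abs_zero]
      positivity
  unfold mm
  calc |(n : ℝ) * (x i * x j) - if i = j then ‖x‖ ^ 2 else 0| ≤
      |(n : ℝ) * (x i * x j)| + |(if i = j then ‖x‖ ^ 2 else 0)| := abs_sub _ _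
    _ ≤ n * ‖x‖ ^ 2 + ‖x‖ ^ 2 := add_le_add h4 h5
    _ = (n + 1) * ‖x‖ ^ 2 := by ring

/-- the sum over the components -/
theorem mm_sum {n : ℕ} (x y : V n) : ∑ i : Fin n, ∑ j : Fin n, mm i j x * mm i j y =
    n * (n * ⟪x, y⟫ ^ 2 - ‖x‖ ^ 2 * ‖y‖ ^ 2) := by
  have h1 : ∀ i j : Fin n, mm i j x * mm i j y =
      (n : ℝ) ^ 2 * ((x i * y i) * (x j * y j)) -
        (if i = j then n * (‖y‖ ^ 2 * (x i * x i)) + n * (‖x‖ ^ 2 * (y i * y i)) -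
          ‖x‖ ^ 2 * ‖y‖ ^ 2 else 0) := by
    intro i j
    unfold mm
    by_cases h : i = j
    · subst h
      rw [if_pos rfl, if_pos rfl, if_pos rfl]
      ring
    · rw [if_neg h, if_neg h, if_neg h]
      ring
  simp only [h1, Finset.sum_sub_distrib, Finset.sum_ite_eq, Finset.mem_univ, if_true]
  have h2 : ∑ i : Fin n, ∑ j : Fin n, (n : ℝ) ^ 2 * ((x i * y i) * (x j * y j)) =
      (n : ℝ) ^ 2 * ⟪x, y⟫ ^ 2 := by
    rw [inner_sum, pow_two (∑ i, x i * y i), Finset.sum_mul_sum, Finset.mul_sum]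
    refine Finset.sum_congr rfl fun i _ => ?_
    rw [Finset.mul_sum]
  rw [h2, Finset.sum_add_distrib, ← Finset.mul_sum, ← Finset.mul_sum, ← Finset.mul_sum,
    ← Finset.mul_sum, ← norm_sum, ← norm_sum, Finset.sum_const, Finset.card_univ, Fintype.card_fin,
    nsmul_eq_mul]
  ring

/-- **PS2** -/
theorem ps2 (sum : SumStmt) : Ps2Stmt := by
  intro n κ b b' hD s
  obtain ⟨_, _, hW, _⟩ := sum n κ κ b b b' b' hD hD
  have h0 : Summable fun a : Fin n → ℤ => ‖W1 (0 :: s) (pt b a)‖ := (hW (0 :: s)).norm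
  have hW0 : ∀ x : V n, W1 (0 :: s) x = W1 s x * ‖x‖ ^ 2 := by
    intro x
    unfold W1
    simp only [e1]
    push_cast
    ring
  have hpair := summable_mul_of_summable_norm h0 h0
  have hpairn : Summable fun a : Z2 n => ((n : ℝ) + 1) *
      ‖W1 (0 :: s) (pt b a.1) * W1 (0 :: s) (pt b a.2)‖ := (hpair.norm).mul_left _
  have hsum : Summable fun a : Z2 n => W1 s (pt b a.1) * W1 s (pt b a.2) *
      (n * ⟪pt b a.1, pt b a.2⟫ ^ 2 - ‖pt b a.1‖ ^ 2 * ‖pt b a.2‖ ^ 2) := by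
    refine Summable.of_norm_bounded hpairn ?_
    intro a
    set x := pt b a.1
    set y := pt b a.2
    have h1 : |⟪x, y⟫| ≤ ‖x‖ * ‖y‖ := abs_real_inner_le_norm x y
    have h2 : ⟪x, y⟫ ^ 2 ≤ ‖x‖ ^ 2 * ‖y‖ ^ 2 := by
      rw [← sq_abs, ← mul_pow]
      exact pow_le_pow_left₀ (abs_nonneg _) h1 2
    have h3 : |(n : ℝ) * ⟪x, y⟫ ^ 2 - ‖x‖ ^ 2 * ‖y‖ ^ 2| ≤ (n + 1) * (‖x‖ ^ 2 * ‖y‖ ^ 2) := by
      have hn : (0 : ℝ) ≤ n := Nat.cast_nonneg n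
      have h4 : (n : ℝ) * ⟪x, y⟫ ^ 2 ≤ n * (‖x‖ ^ 2 * ‖y‖ ^ 2) :=
        mul_le_mul_of_nonneg_left h2 hn
      have h5 : 0 ≤ (n : ℝ) * ⟪x, y⟫ ^ 2 := by positivity
      have h6 : 0 ≤ ‖x‖ ^ 2 * ‖y‖ ^ 2 := by positivity
      have h7 : 0 ≤ (n : ℝ) * (‖x‖ ^ 2 * ‖y‖ ^ 2) := by positivity
      rw [abs_le]
      constructor <;> nlinarith
    rw [hW0, hW0, Real.norm_eq_abs, Real.norm_eq_abs, abs_mul (W1 s x * W1 s y)]
    have h8 : |W1 s x * ‖x‖ ^ 2 * (W1 s y * ‖y‖ ^ 2)| = |W1 s x * W1 s y| * (‖x‖ ^ 2 * ‖y‖ ^ 2) := by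
      rw [show W1 s x * ‖x‖ ^ 2 * (W1 s y * ‖y‖ ^ 2) = (W1 s x * W1 s y) * (‖x‖ ^ 2 * ‖y‖ ^ 2) by ring,
        abs_mul, abs_of_nonneg (show 0 ≤ ‖x‖ ^ 2 * ‖y‖ ^ 2 by positivity)]
    rw [h8]
    calc |W1 s x * W1 s y| * |(n : ℝ) * ⟪x, y⟫ ^ 2 - ‖x‖ ^ 2 * ‖y‖ ^ 2| ≤
        |W1 s x * W1 s y| * ((n + 1) * (‖x‖ ^ 2 * ‖y‖ ^ 2)) :=
          mul_le_mul_of_nonneg_left h3 (abs_nonneg _)
      _ = _ := by ring
  refine ⟨hsum, ?_⟩
  rcases Nat.eq_zero_or_pos n with hn | hn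
  · subst hn
    refine tsum_nonneg fun a => ?_
    have h1 : pt b a.1 = 0 := Subsingleton.elim _ _
    rw [h1]
    simp
  · have hn' : (0 : ℝ) < n := Nat.cast_pos.2 hn
    -- the components
    have hf : ∀ i j : Fin n, Summable fun a : Fin n → ℤ => ‖W1 s (pt b a) * mm i j (pt b a)‖ := by
      intro i j
      refine Summable.of_nonneg_of_le (fun a => norm_nonneg _) ?_ (h0.mul_left ((n : ℝ) + 1))
      intro a
      rw [hW0, norm_mul, norm_mul, Real.norm_eq_abs (mm i j (pt b a)),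
        Real.norm_eq_abs (‖pt b a‖ ^ 2), abs_of_nonneg (show 0 ≤ ‖pt b a‖ ^ 2 by positivity)]
      calc ‖W1 s (pt b a)‖ * |mm i j (pt b a)| ≤ ‖W1 s (pt b a)‖ * ((n + 1) * ‖pt b a‖ ^ 2) :=
            mul_le_mul_of_nonneg_left (mm_bound i j _) (norm_nonneg _)
        _ = _ := by ring
    have hp : ∀ i j : Fin n, HasSum (fun a : Z2 n => (W1 s (pt b a.1) * mm i j (pt b a.1)) *
        (W1 s (pt b a.2) * mm i j (pt b a.2)))
        ((∑' a : Fin n → ℤ, W1 s (pt b a) * mm i j (pt b a)) ^ 2) := by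
      intro i j
      rw [pow_two, tsum_mul_tsum_of_summable_norm (hf i j) (hf i j)]
      exact (summable_mul_of_summable_norm (hf i j) (hf i j)).hasSum
    have h1 := hasSum_sum fun (i : Fin n) (_ : i ∈ Finset.univ) =>
      hasSum_sum fun (j : Fin n) (_ : j ∈ Finset.univ) => hp i j
    have h2 : (fun a : Z2 n => ∑ i : Fin n, ∑ j : Fin n, (W1 s (pt b a.1) * mm i j (pt b a.1)) *
        (W1 s (pt b a.2) * mm i j (pt b a.2))) = fun a : Z2 n => (n : ℝ) *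
          (W1 s (pt b a.1) * W1 s (pt b a.2) *
            (n * ⟪pt b a.1, pt b a.2⟫ ^ 2 - ‖pt b a.1‖ ^ 2 * ‖pt b a.2‖ ^ 2)) := by
      funext a
      have h3 : ∀ i j : Fin n, (W1 s (pt b a.1) * mm i j (pt b a.1)) *
          (W1 s (pt b a.2) * mm i j (pt b a.2)) = (W1 s (pt b a.1) * W1 s (pt b a.2)) *
            (mm i j (pt b a.1) * mm i j (pt b a.2)) := by
        intro i j
        ring
      simp only [h3, ← Finset.mul_sum]
      rw [mm_sum]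
      ring
    rw [h2] at h1
    have h4 : (n : ℝ) * ∑' a : Z2 n, W1 s (pt b a.1) * W1 s (pt b a.2) *
        (n * ⟪pt b a.1, pt b a.2⟫ ^ 2 - ‖pt b a.1‖ ^ 2 * ‖pt b a.2‖ ^ 2) =
        ∑ i : Fin n, ∑ j : Fin n, (∑' a : Fin n → ℤ, W1 s (pt b a) * mm i j (pt b a)) ^ 2 := by
      rw [← tsum_mul_left]
      exact h1.tsum_eq
    have h5 : 0 ≤ (n : ℝ) * ∑' a : Z2 n, W1 s (pt b a.1) * W1 s (pt b a.2) *
        (n * ⟪pt b a.1, pt b a.2⟫ ^ 2 - ‖pt b a.1‖ ^ 2 * ‖pt b a.2‖ ^ 2) := by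
      rw [h4]
      exact Finset.sum_nonneg fun i _ => Finset.sum_nonneg fun j _ => sq_nonneg _
    exact nonneg_of_mul_nonneg_right h5 hn'

end Pool.Agent.LPK.H39
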